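import Pool.Agent.Helper96.FG.MAIN

open MeasureTheory ProbabilityTheory Filter
open Pool.Agent.Helper96 Pool.Agent.Helper96.Frog

/-- In every dimension `d ≥ 1` there are a law `ν` and parameters for which the one-type shapes
differ although the two types can coexist, whatever the tie-breaking rule. -/
theorem Pool.Agent.Results.MP_4318c2_pr.ShapesDifferCoexist.result (d : ℕ) (hd : 1 ≤ d) :
    ∃ (ν : PMF ℕ) (p : Fin 2 → ℝ), ν 0 < 1 ∧ (∀ j, 0 < p j ∧ p j ≤ 1) ∧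
      (∃ (i : Fin d) (c₁ c₂ : ℝ), c₂ < c₁ ∧
        0 < law d ν {ω | ∃ᶠ n : ℕ in atTop, ∃ x ∈ discovered (p 0) ω n, c₁ * (n : ℝ) ≤ x i} ∧
        ∀ᵐ ω ∂(law d ν), ∃ C : ℝ, ∀ n, ∀ x ∈ discovered (p 1) ω n, (x i : ℝ) ≤ c₂ * n + C) ∧
      (∀ A₁ A₂ : Set (Fin d → ℝ), IsShape ν (p 0) A₁ → IsShape ν (p 1) A₂ → A₁ ≠ A₂) ∧
      ∃ z : Site d, z ≠ 0 ∧ ∀ tie : Config d → ℕ → Site d → Fin 2,
        0 < law d ν {ω | ActivatesInfinitely p (tie ω) z 0 ω ∧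
          ActivatesInfinitely p (tie ω) z 1 ω} := by
  rcases Nat.lt_or_ge 1 d with h | h
  · exact main_two d h
  · obtain rfl : d = 1 := by omega
    exact main_one
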